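import Pool.Agent.H65.CRZ.TN
import Pool.Agent.H96.CV.Basic

/-!
# Chebyshev's bound for the prime ideals of a number field
-/

set_option autoImplicit false

open NumberField NumberField.InfinitePlace Complex Filter Topology MeasureTheory

namespace Pool.Agent.H55.CRZ

open Pool.Agent.H28.RC Pool.Agent.H25.HK Pool.Agent.H37.CV Pool.Agent.H96.CV Pool.Agent.H65.CRZ

variable {K : Type} [Field K] [NumberField K]

/-- a rational prime below `P` -/
theorem ch_prime (P : PrI K) : ∃ p : ℕ, p.Prime ∧ (p : 𝓞 K) ∈ P.1 ∧ (p : ℝ) ≤ np P := by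
  have h1 : P.1.IsMaximal := P.2.1.isMaximal P.2.2
  obtain ⟨p, n, hn, hp, hpp, hN⟩ := Ideal.exists_prime_and_absNorm_eq_pow P.1
  refine ⟨p, hpp, hp, ?_⟩
  unfold np nm
  rw [hN]
  have h2 : p ≤ p ^ n := Nat.le_self_pow hn.ne' p
  exact_mod_cast h2

/-- the primes above `p` -/
theorem ch_above (Y : Finset (PrI K)) (p : ℕ) (hp : p.Prime)
    (hY : ∀ P ∈ Y, (p : 𝓞 K) ∈ P.1) :
    ∑ P ∈ Y, Real.log (np P) ≤ (Module.finrank ℤ (𝓞 K) : ℝ) * Real.log p := by
  classical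
  have h1 : ∏ I ∈ Y.image Subtype.val, I ∣ Ideal.span {(p : 𝓞 K)} := by
    apply Finset.prod_primes_dvd
    · intro I hI
      obtain ⟨P, hP, rfl⟩ := Finset.mem_image.1 hI
      exact Ideal.prime_of_isPrime P.2.2 P.2.1
    · intro I hI
      obtain ⟨P, hP, rfl⟩ := Finset.mem_image.1 hI
      rw [Ideal.dvd_span_singleton]
      exact hY P hP
  rw [Finset.prod_image (fun a _ b _ h => Subtype.ext h)] at h1
  have h2 : Ideal.absNorm (∏ P ∈ Y, P.1) ∣ p ^ Module.finrank ℤ (𝓞 K) := by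
    have := map_dvd Ideal.absNorm h1
    rwa [Ideal.absNorm_span_natCast] at this
  have h3 : Ideal.absNorm (∏ P ∈ Y, P.1) ≤ p ^ Module.finrank ℤ (𝓞 K) :=
    Nat.le_of_dvd (pow_pos hp.pos _) h2
  have h4 : ∑ P ∈ Y, Real.log (np P) = Real.log ((Ideal.absNorm (∏ P ∈ Y, P.1) : ℕ) : ℝ) := by
    rw [map_prod, Nat.cast_prod, Real.log_prod]
    · rfl
    · intro P _
      have := np_pos P
      exact this.ne'
  rw [h4, ← Real.log_pow]
  have h5 : Ideal.absNorm (∏ P ∈ Y, P.1) ≠ 0 := by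
    rw [map_prod]
    refine Finset.prod_ne_zero_iff.2 fun P _ h => P.2.2 (Ideal.absNorm_eq_zero_iff.1 h)
  refine Real.log_le_log ?_ ?_
  · exact_mod_cast Nat.pos_of_ne_zero h5
  · exact_mod_cast h3

/-- the sum of `log np P` -/
theorem ch_theta (Y : Finset (PrI K)) (x : ℝ) (hx : 0 ≤ x) (hY : ∀ P ∈ Y, np P ≤ x) :
    ∑ P ∈ Y, Real.log (np P) ≤ (Module.finrank ℤ (𝓞 K) : ℝ) * (Real.log 4 * x) := by
  classical
  choose p hp hpP hpn using fun P : PrI K => ch_prime P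
  have hmaps : ∀ P ∈ Y, p P ∈ (Finset.Ioc 0 ⌊x⌋₊).filter Nat.Prime := by
    intro P hP
    rw [Finset.mem_filter, Finset.mem_Ioc]
    exact ⟨⟨(hp P).pos, Nat.le_floor ((hpn P).trans (hY P hP))⟩, hp P⟩
  rw [← Finset.sum_fiberwise_of_maps_to hmaps]
  have h1 : ∀ q ∈ (Finset.Ioc 0 ⌊x⌋₊).filter Nat.Prime,
      ∑ P ∈ Y.filter (fun P => p P = q), Real.log (np P) ≤
        (Module.finrank ℤ (𝓞 K) : ℝ) * Real.log q := by
    intro q hq
    refine ch_above _ q (Finset.mem_filter.1 hq).2 fun P hP => ?_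
    have h2 := hpP P
    rw [(Finset.mem_filter.1 hP).2] at h2
    exact h2
  refine (Finset.sum_le_sum h1).trans ?_
  rw [← Finset.mul_sum]
  refine mul_le_mul_of_nonneg_left ?_ (Nat.cast_nonneg _)
  exact Chebyshev.theta_le_log4_mul_x hx

theorem pf_CH : T_CH := by
  classical
  intro K _ _
  have hc0 : 0 ≤ (Module.finrank ℤ (𝓞 K) : ℝ) * Real.log 4 :=
    mul_nonneg (Nat.cast_nonneg _) (Real.log_nonneg (by norm_num))
  obtain ⟨c, hc⟩ : ∃ c : ℝ, c = (Module.finrank ℤ (𝓞 K) : ℝ) * Real.log 4 := ⟨_, rfl⟩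
  rw [← hc] at hc0
  refine ⟨8 * c + 1, by linarith, ?_⟩
  intro z r X hz hr hX
  have hz0 : 0 < z := by linarith
  have hlr : 0 ≤ Real.log r := Real.log_nonneg hr
  have hq : ∀ P ∈ X, 1 ≤ np P / z := by
    intro P hP
    rw [le_div_iff₀ hz0, one_mul]
    exact (hX P hP).1.le
  have hlog : ∀ P ∈ X, (2 : ℝ) ^ Nat.log 2 ⌊np P / z⌋₊ ≤ np P / z ∧
      np P / z < 2 ^ (Nat.log 2 ⌊np P / z⌋₊ + 1) := by
    intro P hP
    have h1 := hq P hP
    have h2 : ⌊np P / z⌋₊ ≠ 0 := (Nat.floor_pos.2 h1).ne'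
    constructor
    · have h3 := Nat.pow_log_le_self 2 h2
      calc (2 : ℝ) ^ Nat.log 2 ⌊np P / z⌋₊ ≤ (⌊np P / z⌋₊ : ℝ) := by exact_mod_cast h3
        _ ≤ np P / z := Nat.floor_le (by linarith)
    · have h3 := Nat.lt_pow_succ_log_self (b := 2) (by norm_num) ⌊np P / z⌋₊
      have h4 : ⌊np P / z⌋₊ + 1 ≤ 2 ^ (Nat.log 2 ⌊np P / z⌋₊ + 1) := h3
      calc np P / z < ⌊np P / z⌋₊ + 1 := Nat.lt_floor_add_one _
        _ ≤ _ := by exact_mod_cast h4
  have hmaps : ∀ P ∈ X, Nat.log 2 ⌊np P / z⌋₊ ∈ Finset.range (Nat.log 2 ⌊r⌋₊ + 1) := by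
    intro P hP
    rw [Finset.mem_range]
    refine Nat.lt_succ_of_le (Nat.log_mono_right (Nat.floor_le_floor ?_))
    rw [div_le_iff₀ hz0, mul_comm]
    exact (hX P hP).2
  rw [← Finset.sum_fiberwise_of_maps_to hmaps]
  have h2 : ∀ k ∈ Finset.range (Nat.log 2 ⌊r⌋₊ + 1),
      ∑ P ∈ X.filter (fun P => Nat.log 2 ⌊np P / z⌋₊ = k), Real.log (np P) / (np P - 1) ≤
        4 * c := by
    intro k _
    have hb : ∀ P ∈ X.filter (fun P => Nat.log 2 ⌊np P / z⌋₊ = k),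
        np P ≤ 2 ^ (k + 1) * z ∧ 2 ^ k * z ≤ np P := by
      intro P hP
      rw [Finset.mem_filter] at hP
      have h3 := hlog P hP.1
      rw [hP.2] at h3
      constructor
      · have := h3.2
        rw [div_lt_iff₀ hz0] at this
        exact this.le
      · have := h3.1
        rw [le_div_iff₀ hz0] at this
        exact this
    have h3 := ch_theta (X.filter (fun P => Nat.log 2 ⌊np P / z⌋₊ = k)) (2 ^ (k + 1) * z)
      (by positivity) fun P hP => (hb P hP).1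
    rw [← mul_assoc, ← hc] at h3
    have h4 : ∀ P ∈ X.filter (fun P => Nat.log 2 ⌊np P / z⌋₊ = k),
        Real.log (np P) / (np P - 1) ≤ 2 / (2 ^ k * z) * Real.log (np P) := by
      intro P hP
      have h5 := two_le_np P
      have h6 : 0 ≤ Real.log (np P) := Real.log_nonneg (by linarith)
      have h7 := (hb P hP).2
      have h8 : 0 < (2 : ℝ) ^ k * z := by positivity
      rw [div_eq_mul_inv, mul_comm]
      refine mul_le_mul_of_nonneg_right ?_ h6
      rw [inv_le_comm₀ (by linarith) (by positivity), inv_div]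
      linarith
    refine (Finset.sum_le_sum h4).trans ?_
    rw [← Finset.mul_sum]
    calc _ ≤ 2 / (2 ^ k * z) * (c * (2 ^ (k + 1) * z)) :=
          mul_le_mul_of_nonneg_left h3 (by positivity)
      _ = 4 * c := by
          rw [pow_succ]
          field_simp
          ring
  refine (Finset.sum_le_sum h2).trans ?_
  rw [Finset.sum_const, nsmul_eq_mul, Finset.card_range]
  have hf : 1 ≤ ⌊r⌋₊ := Nat.one_le_floor_iff r |>.2 hr
  have h3 : (Nat.log 2 ⌊r⌋₊ : ℝ) * Real.log 2 ≤ Real.log r := by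
    rw [← Real.log_pow]
    refine Real.log_le_log (by positivity) ?_
    have h4 := Nat.pow_log_le_self 2 (x := ⌊r⌋₊) (by omega)
    calc ((2 : ℝ)) ^ Nat.log 2 ⌊r⌋₊ ≤ (⌊r⌋₊ : ℝ) := by exact_mod_cast h4
      _ ≤ r := Nat.floor_le (by linarith)
  have h5 : (Nat.log 2 ⌊r⌋₊ : ℝ) ≤ 2 * Real.log r := by
    have h6 : (Nat.log 2 ⌊r⌋₊ : ℝ) * (1 / 2) ≤ (Nat.log 2 ⌊r⌋₊ : ℝ) * Real.log 2 :=
      mul_le_mul_of_nonneg_left (by have := Real.log_two_gt_d9; linarith) (Nat.cast_nonneg _)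
    linarith
  push_cast
  nlinarith

end Pool.Agent.H55.CRZ
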