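import Pool.Agent.H65.CRZ.TN
import Pool.Agent.H96.CV.Basic
import Pool.Agent.H27.CV.CB
import Pool.Agent.H86.CV.GU
import Pool.Agent.H86.CV.DV
import Pool.Agent.H3.CV.GC

/-!
# The trivial bound of the contribution of a relation
-/

set_option autoImplicit false

open NumberField NumberField.InfinitePlace Complex Filter Topology MeasureTheory

namespace Pool.Agent.H55.CRZ

open Pool.Agent.H28.RC Pool.Agent.H25.HK Pool.Agent.H37.CV Pool.Agent.H96.CV Pool.Agent.H65.CRZ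

theorem dt_log {δ M : ℝ} (hδ : 0 < δ) (hM : 1 ≤ M) :
    (1 + Real.log M) ^ 3 ≤ (1 + 3 / (2 * δ)) ^ 3 * M ^ (2 * δ) := by
  have hM0 : 0 < M := by linarith
  have h1 := Real.log_le_rpow_div hM0.le (ε := 2 * δ / 3) (by positivity)
  have h2 : 1 ≤ M ^ (2 * δ / 3) := Real.one_le_rpow hM (by positivity)
  have h3 : 1 + Real.log M ≤ (1 + 3 / (2 * δ)) * M ^ (2 * δ / 3) := by
    have e : M ^ (2 * δ / 3) / (2 * δ / 3) = 3 / (2 * δ) * M ^ (2 * δ / 3) := by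
      field_simp
    rw [e] at h1
    rw [add_mul, one_mul]
    linarith
  have h4 : 0 ≤ 1 + Real.log M := by have := Real.log_nonneg hM; linarith
  calc (1 + Real.log M) ^ 3 ≤ ((1 + 3 / (2 * δ)) * M ^ (2 * δ / 3)) ^ 3 :=
        pow_le_pow_left₀ h4 h3 3
    _ = (1 + 3 / (2 * δ)) ^ 3 * M ^ (2 * δ) := by
        rw [mul_pow, ← Real.rpow_natCast (M ^ (2 * δ / 3)) 3, ← Real.rpow_mul hM0.le]
        congr 2
        push_cast
        ring

theorem dt_final {δ Q M N X : ℝ} {A : ℕ} (hδ : 0 < δ) (hδ8 : δ ≤ 1 / 8) (hQ : 1 ≤ Q) (hM : 1 ≤ M)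
    (hN : 1 ≤ N) (hX : X = Q * M ^ 2 / N) :
    (M ^ 2 * N) ^ δ * M ^ (2 * δ) * min (X ^ (2 * δ)) (X ^ ((A : ℝ) + 1)) ≤
      (Q * M ^ 2) ^ (8 * δ) * min 1 (X ^ A) := by
  have hM0 : 0 < M := by linarith
  have hQ0 : 0 < Q := by linarith
  have hN0 : 0 < N := by linarith
  obtain ⟨P, hP⟩ : ∃ P : ℝ, P = Q * M ^ 2 := ⟨_, rfl⟩
  have hM2 : 1 ≤ M ^ 2 := one_le_pow₀ hM
  have hMP : M ^ 2 ≤ P := by
    rw [hP]
    nlinarith
  have hP1 : 1 ≤ P := hM2.trans hMP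
  have hP0 : 0 < P := by linarith
  rw [← hP] at hX ⊢
  have hX0 : 0 < X := by rw [hX]; positivity
  have hXP : X ≤ P := by rw [hX]; exact div_le_self hP0.le hN
  have hNX : N = P / X := by
    rw [hX]
    field_simp
  have a1 : M ^ (2 * δ) ≤ P ^ δ := by
    rw [Real.rpow_mul hM0.le, Real.rpow_two]
    exact Real.rpow_le_rpow (by positivity) hMP hδ.le
  rcases le_or_gt 1 X with h | h
  · have e1 : min 1 (X ^ A) = 1 := min_eq_left (one_le_pow₀ h)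
    rw [e1, mul_one]
    have a2 : (M ^ 2 * N) ^ δ ≤ P ^ (2 * δ) := by
      have : M ^ 2 * N ≤ P ^ 2 := by
        rw [sq P]
        refine mul_le_mul hMP ?_ hN0.le hP0.le
        rw [hNX]
        exact div_le_self hP0.le h
      calc (M ^ 2 * N) ^ δ ≤ (P ^ 2) ^ δ := Real.rpow_le_rpow (by positivity) this hδ.le
        _ = P ^ (2 * δ) := by rw [← Real.rpow_two, ← Real.rpow_mul hP0.le]
    have a3 : min (X ^ (2 * δ)) (X ^ ((A : ℝ) + 1)) ≤ P ^ (2 * δ) :=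
      (min_le_left _ _).trans (Real.rpow_le_rpow hX0.le hXP (by positivity))
    have a4 : 0 ≤ min (X ^ (2 * δ)) (X ^ ((A : ℝ) + 1)) := le_min (by positivity) (by positivity)
    calc (M ^ 2 * N) ^ δ * M ^ (2 * δ) * min (X ^ (2 * δ)) (X ^ ((A : ℝ) + 1))
        ≤ P ^ (2 * δ) * P ^ δ * P ^ (2 * δ) := by gcongr
      _ = P ^ (5 * δ) := by
          rw [← Real.rpow_add hP0, ← Real.rpow_add hP0]
          congr 1
          ring
      _ ≤ P ^ (8 * δ) := Real.rpow_le_rpow_of_exponent_le hP1 (by linarith)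
  · have e1 : min 1 (X ^ A) = X ^ A := min_eq_right (pow_le_one₀ hX0.le h.le)
    rw [e1]
    have a2 : (M ^ 2 * N) ^ δ ≤ P ^ (2 * δ) * X ^ (-δ) := by
      have : M ^ 2 * N ≤ P ^ 2 / X := by
        rw [hNX, sq P, mul_div_assoc]
        exact mul_le_mul_of_nonneg_right hMP (by positivity)
      calc (M ^ 2 * N) ^ δ ≤ (P ^ 2 / X) ^ δ := Real.rpow_le_rpow (by positivity) this hδ.le
        _ = P ^ (2 * δ) * X ^ (-δ) := by
            rw [Real.div_rpow (by positivity) hX0.le, ← Real.rpow_two, ← Real.rpow_mul hP0.le,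
              Real.rpow_neg hX0.le]
            rfl
    have a3 : min (X ^ (2 * δ)) (X ^ ((A : ℝ) + 1)) ≤ X ^ A * X := by
      refine (min_le_right _ _).trans (le_of_eq ?_)
      rw [Real.rpow_add hX0, Real.rpow_natCast, Real.rpow_one]
    have a4 : 0 ≤ min (X ^ (2 * δ)) (X ^ ((A : ℝ) + 1)) := le_min (by positivity) (by positivity)
    have a5 : X ^ (-δ) * X ≤ 1 := by
      calc X ^ (-δ) * X = X ^ (1 - δ) := by
            rw [sub_eq_neg_add, Real.rpow_add hX0, Real.rpow_one]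
        _ ≤ 1 := Real.rpow_le_one hX0.le h.le (by linarith)
    calc (M ^ 2 * N) ^ δ * M ^ (2 * δ) * min (X ^ (2 * δ)) (X ^ ((A : ℝ) + 1))
        ≤ (P ^ (2 * δ) * X ^ (-δ)) * P ^ δ * (X ^ A * X) := by gcongr
      _ = P ^ (2 * δ) * P ^ δ * X ^ A * (X ^ (-δ) * X) := by ring
      _ ≤ P ^ (2 * δ) * P ^ δ * X ^ A * 1 := by gcongr
      _ = P ^ (3 * δ) * X ^ A := by
          rw [mul_one, ← Real.rpow_add hP0]
          congr 2
          ring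
      _ ≤ P ^ (8 * δ) * X ^ A := by
          refine mul_le_mul_of_nonneg_right ?_ (by positivity)
          exact Real.rpow_le_rpow_of_exponent_le hP1 (by linarith)

theorem dt_hf {c N G : ℝ} (hc : 0 < c) (hN : 0 < N) (hG : 0 < G) :
    c ^ (-(1 / 2) : ℝ) * (c * N / G ^ 2) ^ (-(1 / 2) : ℝ) = G / c * N ^ (-(1 / 2) : ℝ) := by
  have e3 : c * N / G ^ 2 = c * N * ((G ^ 2)⁻¹) := by
    field_simp
  have e5 : ((G ^ 2)⁻¹) ^ (-(1 / 2) : ℝ) = G := by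
    rw [Real.inv_rpow (by positivity), Real.rpow_neg (sq_nonneg G), inv_inv,
      ← Real.sqrt_eq_rpow, Real.sqrt_sq hG.le]
  have e4 : c ^ (-(1 / 2) : ℝ) * c ^ (-(1 / 2) : ℝ) = c⁻¹ := by
    rw [← Real.rpow_add hc, ← Real.rpow_neg_one]
    norm_num
  rw [e3, Real.mul_rpow (by positivity) (by positivity), Real.mul_rpow hc.le hN.le, e5]
  calc c ^ (-(1 / 2) : ℝ) * (c ^ (-(1 / 2) : ℝ) * N ^ (-(1 / 2) : ℝ) * G)
      = (c ^ (-(1 / 2) : ℝ) * c ^ (-(1 / 2) : ℝ)) * N ^ (-(1 / 2) : ℝ) * G := by ring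
    _ = _ := by rw [e4]; ring

theorem pf_DT (h1 : T_SB) : Pool.Agent.H65.CRZ.T_DT := by
  classical
  intro K _ _ δ A hδ hδ8
  have hA0 : (0 : ℝ) ≤ A := Nat.cast_nonneg _
  obtain ⟨C₁, B₁, hC₁, hB₁, hS₁⟩ := h1 K δ (2 * δ) hδ hδ8 le_rfl
  obtain ⟨C₂, B₂, hC₂, hB₂, hS₂⟩ := h1 K δ ((A : ℝ) + 1) hδ hδ8 (by linarith)
  obtain ⟨C₃, -, hC₃, -⟩ := Pool.Agent.H86.CV.pf_GU Pool.Agent.H86.CV.pf_DV K
  refine ⟨((|C₃| + 1) * (1 + 3 / (2 * δ))) ^ 3 * (C₁ + C₂), max B₁ B₂, by positivity,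
    hB₁.trans (le_max_left _ _), fun m Q M s₁ s₂ c₁ c₂ I J hQ hM hs₁ hs₂ hc₁ hc₂ hI hJ hIJ => ?_⟩
  have hD : Disjoint (pf I) (pf J) := ((Pool.Agent.H3.CV.pf_GC K ∅ ∅).2 I J hI hJ hIJ).1
  obtain ⟨hb1, hb2⟩ := Pool.Agent.H27.CV.pf_CB (PrI K) np (PM K M) (pf I) (pf J) M two_le_np hM hD
  obtain ⟨L, hL⟩ : ∃ L : ℝ, L = 1 + |s₁.im| + |s₂.im| := ⟨_, rfl⟩
  have hL1 : 1 ≤ L := by
    have := abs_nonneg s₁.im
    have := abs_nonneg s₂.im
    linarith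
  rw [← hL]
  have hI0 := nm_pos hI
  have hJ0 := nm_pos hJ
  have hN1 : 1 ≤ nm I * nm J := by
    have := mul_le_mul (one_le_nm hI) (one_le_nm hJ) zero_le_one hI0.le
    linarith
  obtain ⟨N, hN⟩ : ∃ N : ℝ, N = nm I * nm J := ⟨_, rfl⟩
  rw [← hN] at hN1 ⊢
  have hN0 : 0 < N := by linarith
  have hM0 : 0 < M := by linarith
  obtain ⟨X, hX⟩ : ∃ X : ℝ, X = Q * M ^ 2 / N := ⟨_, rfl⟩
  have hX0 : 0 < X := by rw [hX]; positivity
  obtain ⟨μ, hμ⟩ : ∃ μ : ℝ, μ = min (X ^ (2 * δ)) (X ^ ((A : ℝ) + 1)) := ⟨_, rfl⟩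
  have hμ0 : 0 ≤ μ := by rw [hμ]; exact le_min (by positivity) (by positivity)
  have hr₁ : -s₁.re ≤ -(1 / 2) + δ := by have := (abs_le.1 hs₁).1; linarith
  have hr₂ : -s₂.re ≤ -(1 / 2) + δ := by have := (abs_le.1 hs₂).1; linarith
  have hLB : L ^ B₁ ≤ L ^ max B₁ B₂ ∧ L ^ B₂ ≤ L ^ max B₁ B₂ :=
    ⟨Real.rpow_le_rpow_of_exponent_le hL1 (le_max_left _ _),
      Real.rpow_le_rpow_of_exponent_le hL1 (le_max_right _ _)⟩
  have hLm : 0 ≤ L ^ max B₁ B₂ := Real.rpow_nonneg (by linarith) _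
  have hterm : ∀ S ∈ DM K M, ∀ T ∈ DM K M,
      ‖((nm I : ℝ) : ℂ) ^ (-s₁) * ((nm J : ℝ) : ℂ) ^ (-s₂) *
        (c₁ S * c₂ T * (((nS np T / gg np (pf I) (pf J) S T : ℝ) : ℂ) ^ (-s₁) *
        ((nS np S / gg np (pf I) (pf J) S T : ℝ) : ℂ) ^ (-s₂)) *
        Sg m s₁ s₂ (Q * gg np (pf I) (pf J) S T ^ 2 / (nS np S * nS np T * N)))‖ ≤
      (gg np (pf I) (pf J) S T / (nS np S * nS np T)) *
        (N ^ (-(1 / 2) : ℝ) * (M ^ 2 * N) ^ δ * ((C₁ + C₂) * L ^ max B₁ B₂ * μ)) := by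
    intro S hS' T hT'
    obtain ⟨g1, g2⟩ := hb1 S hS' T hT'
    obtain ⟨hGS, -, hGG⟩ := Pool.Agent.H3.CV.pf_GC K S T |>.imp id (fun h => h I J hI hJ hIJ)
    have hGT := (Pool.Agent.H3.CV.pf_GC K T S).1
    obtain ⟨g, u, v, hg, hu, hv, -, hgn⟩ := hGG
    obtain ⟨G, hG⟩ : ∃ G : ℝ, G = gg np (pf I) (pf J) S T := ⟨_, rfl⟩
    rw [← hG] at g1 g2 hgn ⊢
    have hG0 : 0 < G := by linarith
    obtain ⟨a, ha⟩ : ∃ a : ℝ, a = nS np S := ⟨_, rfl⟩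
    obtain ⟨b, hb⟩ : ∃ b : ℝ, b = nS np T := ⟨_, rfl⟩
    have ha1 : 1 ≤ a := by rw [ha]; exact one_le_nS S
    have hb1' : 1 ≤ b := by rw [hb]; exact one_le_nS T
    have haM : a ≤ M := by rw [ha]; exact (mem_DM.1 hS').2
    have hbM : b ≤ M := by rw [hb]; exact (mem_DM.1 hT').2
    have ha0 : 0 < a := by linarith
    have hb0 : 0 < b := by linarith
    have hmul : ∀ x y : Ideal (𝓞 K), nm (x * y) = nm x * nm y := fun x y => by
      unfold nm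
      rw [map_mul, Nat.cast_mul]
    have hu0 : u ≠ ⊥ := by
      rintro rfl
      have h2 := congrArg nm hu
      rw [hmul, hmul, hGS, ← ha] at h2
      have h3 : nm (⊥ : Ideal (𝓞 K)) = 0 := by
        unfold nm
        rw [Ideal.absNorm_bot, Nat.cast_zero]
      rw [h3, mul_zero] at h2
      exact (mul_pos ha0 hJ0).ne' h2
    have hv0 : v ≠ ⊥ := by
      rintro rfl
      have h2 := congrArg nm hv
      rw [hmul, hmul, hGT, ← hb] at h2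
      have h3 : nm (⊥ : Ideal (𝓞 K)) = 0 := by
        unfold nm
        rw [Ideal.absNorm_bot, Nat.cast_zero]
      rw [h3, mul_zero] at h2
      exact (mul_pos hb0 hI0).ne' h2
    have eu : a * nm J = G * nm u := by
      have h2 := congrArg nm hu
      rwa [hmul, hmul, hGS, hgn, ← ha] at h2
    have ev : b * nm I = G * nm v := by
      have h2 := congrArg nm hv
      rwa [hmul, hmul, hGT, hgn, ← hb] at h2
    have hu1 := one_le_nm hu0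
    have hv1 := one_le_nm hv0
    have hu00 : 0 < nm u := by linarith
    have hv00 : 0 < nm v := by linarith
    rw [← ha, ← hb] at g2 ⊢
    have hns : 0 < a * b := mul_pos ha0 hb0
    obtain ⟨Z, hZ⟩ : ∃ Z : ℝ, Z = Q * G ^ 2 / (a * b * N) := ⟨_, rfl⟩
    rw [← hZ]
    have hQ0 : 0 < Q := by linarith
    have hZp : 0 < Z := by rw [hZ]; positivity
    have hZle : Z ≤ X := by
      have e1 : Z = Q * (G ^ 2 / (a * b)) / N := by
        rw [hZ]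
        field_simp
      rw [e1, hX]
      gcongr
    have hSg : ‖Sg m s₁ s₂ Z‖ ≤ (C₁ + C₂) * L ^ max B₁ B₂ * μ := by
      have k1 := (hS₁ m s₁ s₂ Z hs₁ hs₂ hZp).2
      have k2 := (hS₂ m s₁ s₂ Z hs₁ hs₂ hZp).2
      rw [← hL] at k1 k2
      have hk1 : ‖Sg m s₁ s₂ Z‖ ≤ (C₁ + C₂) * L ^ max B₁ B₂ * X ^ (2 * δ) := by
        refine k1.trans ?_
        have : Z ^ (2 * δ) ≤ X ^ (2 * δ) := Real.rpow_le_rpow hZp.le hZle (by positivity)
        have h5 := hLB.1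
        have h6 : C₁ ≤ C₁ + C₂ := by linarith
        gcongr
      have hk2 : ‖Sg m s₁ s₂ Z‖ ≤ (C₁ + C₂) * L ^ max B₁ B₂ * X ^ ((A : ℝ) + 1) := by
        refine k2.trans ?_
        have : Z ^ ((A : ℝ) + 1) ≤ X ^ ((A : ℝ) + 1) :=
          Real.rpow_le_rpow hZp.le hZle (by positivity)
        have h5 := hLB.2
        have h6 : C₂ ≤ C₁ + C₂ := by linarith
        gcongr
      rw [hμ]
      rcases min_choice (X ^ (2 * δ)) (X ^ ((A : ℝ) + 1)) with h | h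
      · rw [h]
        exact hk1
      · rw [h]
        exact hk2
    have hpw : ‖((nm I : ℝ) : ℂ) ^ (-s₁) * ((nm J : ℝ) : ℂ) ^ (-s₂)‖ *
        (‖c₁ S‖ * ‖c₂ T‖ * (‖((b / G : ℝ) : ℂ) ^ (-s₁)‖ * ‖((a / G : ℝ) : ℂ) ^ (-s₂)‖)) ≤
        G / (a * b) * (N ^ (-(1 / 2) : ℝ) * (M ^ 2 * N) ^ δ) := by
      rw [norm_mul, Complex.norm_cpow_eq_rpow_re_of_pos hI0,
        Complex.norm_cpow_eq_rpow_re_of_pos hJ0,
        Complex.norm_cpow_eq_rpow_re_of_pos (by positivity : 0 < b / G),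
        Complex.norm_cpow_eq_rpow_re_of_pos (by positivity : 0 < a / G), neg_re, neg_re]
      have e1 : nm v = b / G * nm I := by
        rw [div_mul_eq_mul_div, ev]
        field_simp
      have e2 : nm u = a / G * nm J := by
        rw [div_mul_eq_mul_div, eu]
        field_simp
      have hab : ‖c₁ S‖ * ‖c₂ T‖ ≤ (a * b) ^ (-(1 / 2) : ℝ) := by
        rw [Real.mul_rpow ha0.le hb0.le]
        have k1 := hc₁ S
        have k2 := hc₂ T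
        rw [← ha] at k1
        rw [← hb] at k2
        exact mul_le_mul k1 k2 (norm_nonneg _) (by positivity)
      have hv2 : (nm I) ^ (-s₁.re) * (b / G) ^ (-s₁.re) ≤ (nm v) ^ (-(1 / 2) + δ) := by
        rw [← Real.mul_rpow hI0.le (by positivity), mul_comm (nm I), ← e1]
        exact Real.rpow_le_rpow_of_exponent_le hv1 hr₁
      have hu2 : (nm J) ^ (-s₂.re) * (a / G) ^ (-s₂.re) ≤ (nm u) ^ (-(1 / 2) + δ) := by
        rw [← Real.mul_rpow hJ0.le (by positivity), mul_comm (nm J), ← e2]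
        exact Real.rpow_le_rpow_of_exponent_le hu1 hr₂
      have euv : nm v * nm u = a * b * N / G ^ 2 := by
        rw [e1, e2, hN]
        field_simp
      have huv : (nm v) ^ (-(1 / 2) + δ) * (nm u) ^ (-(1 / 2) + δ) ≤
          (a * b * N / G ^ 2) ^ (-(1 / 2) : ℝ) * (M ^ 2 * N) ^ δ := by
        rw [← Real.mul_rpow hv00.le hu00.le, Real.rpow_add (by positivity), euv]
        refine mul_le_mul_of_nonneg_left ?_ (by positivity)
        refine Real.rpow_le_rpow (by positivity) ?_ hδ.le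
        have hG2 : 1 ≤ G ^ 2 := one_le_pow₀ g1
        refine (div_le_self (by positivity) hG2).trans ?_
        rw [sq M]
        gcongr
      have hfin := dt_hf hns hN0 hG0
      calc nm I ^ (-s₁.re) * nm J ^ (-s₂.re) *
            (‖c₁ S‖ * ‖c₂ T‖ * ((b / G) ^ (-s₁.re) * (a / G) ^ (-s₂.re)))
          = (‖c₁ S‖ * ‖c₂ T‖) * (((nm I) ^ (-s₁.re) * (b / G) ^ (-s₁.re)) *
              ((nm J) ^ (-s₂.re) * (a / G) ^ (-s₂.re))) := by ring
        _ ≤ (a * b) ^ (-(1 / 2) : ℝ) * ((nm v) ^ (-(1 / 2) + δ) * (nm u) ^ (-(1 / 2) + δ)) := by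
            gcongr
        _ ≤ (a * b) ^ (-(1 / 2) : ℝ) * ((a * b * N / G ^ 2) ^ (-(1 / 2) : ℝ) *
              (M ^ 2 * N) ^ δ) := by gcongr
        _ = ((a * b) ^ (-(1 / 2) : ℝ) * (a * b * N / G ^ 2) ^ (-(1 / 2) : ℝ)) *
              (M ^ 2 * N) ^ δ := by ring
        _ = G / (a * b) * (N ^ (-(1 / 2) : ℝ) * (M ^ 2 * N) ^ δ) := by rw [hfin]; ring
    rw [norm_mul, norm_mul (c₁ S * c₂ T * _), norm_mul (c₁ S * c₂ T), norm_mul (c₁ S),
      norm_mul (((b / G : ℝ) : ℂ) ^ (-s₁))]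
    have hq0 : 0 ≤ G / (a * b) * (N ^ (-(1 / 2) : ℝ) * (M ^ 2 * N) ^ δ) := by positivity
    calc _ = (‖((nm I : ℝ) : ℂ) ^ (-s₁) * ((nm J : ℝ) : ℂ) ^ (-s₂)‖ *
          (‖c₁ S‖ * ‖c₂ T‖ * (‖((b / G : ℝ) : ℂ) ^ (-s₁)‖ * ‖((a / G : ℝ) : ℂ) ^ (-s₂)‖))) *
            ‖Sg m s₁ s₂ Z‖ := by ring
      _ ≤ (G / (a * b) * (N ^ (-(1 / 2) : ℝ) * (M ^ 2 * N) ^ δ)) *
            ((C₁ + C₂) * L ^ max B₁ B₂ * μ) := mul_le_mul hpw hSg (norm_nonneg _) hq0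
      _ = _ := by ring
  have hΘ : 0 ≤ N ^ (-(1 / 2) : ℝ) * (M ^ 2 * N) ^ δ * ((C₁ + C₂) * L ^ max B₁ B₂ * μ) := by
    positivity
  have hG0 : 0 ≤ GS np (PM K M) M := by
    unfold GS
    refine Finset.sum_nonneg fun S _ => inv_nonneg.2 ?_
    exact Finset.prod_nonneg fun P _ => by linarith [two_le_np P]
  have hlM : 0 ≤ Real.log M := Real.log_nonneg hM
  have hG3 : GS np (PM K M) M ≤ (|C₃| + 1) * (1 + Real.log M) := by
    refine (hC₃ M hM).trans ?_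
    have : C₃ ≤ |C₃| + 1 := by linarith [le_abs_self C₃]
    gcongr
  unfold Dg
  rw [← hN]
  simp only [Finset.mul_sum]
  refine (norm_sum_le _ _).trans ?_
  refine (Finset.sum_le_sum fun S hS' => (norm_sum_le _ _).trans
    (Finset.sum_le_sum fun T hT' => hterm S hS' T hT')).trans ?_
  simp only [← Finset.sum_mul]
  refine (mul_le_mul_of_nonneg_right hb2 hΘ).trans ?_
  have hfin := dt_final (A := A) hδ hδ8 hQ hM hN1 hX
  rw [← hμ, hX] at hfin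
  calc 2 ^ ((pf I).card + (pf J).card) * GS np (PM K M) M ^ 3 *
        (N ^ (-(1 / 2) : ℝ) * (M ^ 2 * N) ^ δ * ((C₁ + C₂) * L ^ max B₁ B₂ * μ))
      ≤ 2 ^ ((pf I).card + (pf J).card) * ((|C₃| + 1) * (1 + Real.log M)) ^ 3 *
        (N ^ (-(1 / 2) : ℝ) * (M ^ 2 * N) ^ δ * ((C₁ + C₂) * L ^ max B₁ B₂ * μ)) := by gcongr
    _ = 2 ^ ((pf I).card + (pf J).card) * (|C₃| + 1) ^ 3 * (1 + Real.log M) ^ 3 *
        (N ^ (-(1 / 2) : ℝ) * (M ^ 2 * N) ^ δ * ((C₁ + C₂) * L ^ max B₁ B₂ * μ)) := by ring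
    _ ≤ 2 ^ ((pf I).card + (pf J).card) * (|C₃| + 1) ^ 3 *
        ((1 + 3 / (2 * δ)) ^ 3 * M ^ (2 * δ)) *
        (N ^ (-(1 / 2) : ℝ) * (M ^ 2 * N) ^ δ * ((C₁ + C₂) * L ^ max B₁ B₂ * μ)) := by
        have := dt_log hδ hM
        gcongr
    _ = ((|C₃| + 1) * (1 + 3 / (2 * δ))) ^ 3 * (C₁ + C₂) * L ^ max B₁ B₂ *
        N ^ (-(1 / 2) : ℝ) * 2 ^ ((pf I).card + (pf J).card) *
        ((M ^ 2 * N) ^ δ * M ^ (2 * δ) * μ) := by ring
    _ ≤ ((|C₃| + 1) * (1 + 3 / (2 * δ))) ^ 3 * (C₁ + C₂) * L ^ max B₁ B₂ *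
        N ^ (-(1 / 2) : ℝ) * 2 ^ ((pf I).card + (pf J).card) *
        ((Q * M ^ 2) ^ (8 * δ) * min 1 ((Q * M ^ 2 / N) ^ A)) := by gcongr
    _ = _ := by ring

end Pool.Agent.H55.CRZ
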